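import Pool.Agent.MP_0f71ae_nt.Fine.Part

/-!
# Exponential sums on major arcs
-/

set_option autoImplicit false

namespace Pool.Agent.MP_0f71ae_nt.Fine

open Finset Pool.Agent.MP_0f71ae_nt.Reg Pool.Agent.MP_0f71ae_nt.Cnt

/-- The phase `e(n θ)`. -/
noncomputable def ph (θ : ℝ) (n : ℕ) : ℂ := Complex.exp (Complex.I * ((2 * Real.pi * (θ * n) : ℝ) : ℂ))

theorem ph_norm (θ : ℝ) (n : ℕ) : ‖ph θ n‖ = 1 := by
  unfold ph
  rw [mul_comm, Complex.norm_exp_ofReal_mul_I]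

/-- Phases of two numbers in one residue class. -/
theorem ph_sub {q : ℕ} (hq : 1 ≤ q) (b : ℤ) (β : ℝ) {m n : ℕ} (hmn : m ≤ n) (hd : q ∣ n - m) :
    ‖ph ((b : ℝ) / q + β) n - ph ((b : ℝ) / q + β) m‖ ≤ 2 * Real.pi * |β| * ((n : ℝ) - m) := by
  obtain ⟨c, hc⟩ := hd
  have hq0 : (q : ℝ) ≠ 0 := by
    have : (0 : ℝ) < q := by exact_mod_cast hq
    exact this.ne'
  have hn : (n : ℝ) = m + q * c := by
    have : n = m + q * c := by omega
    exact_mod_cast this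
  have hpi : (0 : ℝ) < Real.pi := Real.pi_pos
  have h1 : ph ((b : ℝ) / q + β) n = ph ((b : ℝ) / q + β) m *
      Complex.exp (Complex.I * ((2 * Real.pi * (β * ((n : ℝ) - m)) : ℝ) : ℂ)) := by
    unfold ph
    rw [← Complex.exp_add]
    have e1 : (2 * Real.pi * (((b : ℝ) / q + β) * n) : ℝ) =
        2 * Real.pi * (((b : ℝ) / q + β) * m) + 2 * Real.pi * (β * ((n : ℝ) - m)) +
          2 * Real.pi * ((b * c : ℤ) : ℝ) := by
      rw [hn]
      push_cast
      field_simp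
      ring
    rw [e1]
    have e2 : Complex.I * ((2 * Real.pi * (((b : ℝ) / q + β) * m) +
        2 * Real.pi * (β * ((n : ℝ) - m)) + 2 * Real.pi * ((b * c : ℤ) : ℝ) : ℝ) : ℂ) =
        (Complex.I * ((2 * Real.pi * (((b : ℝ) / q + β) * m) : ℝ) : ℂ) +
          Complex.I * ((2 * Real.pi * (β * ((n : ℝ) - m)) : ℝ) : ℂ)) +
            ((b * c : ℤ) : ℂ) * (2 * Real.pi * Complex.I) := by
      push_cast
      ring
    rw [e2, Complex.exp_add _ (((b * c : ℤ) : ℂ) * (2 * Real.pi * Complex.I)),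
      Complex.exp_int_mul_two_pi_mul_I, mul_one]
  rw [h1, ← mul_sub_one, norm_mul, ph_norm, one_mul]
  refine Real.norm_exp_I_mul_ofReal_sub_one_le.trans ?_
  have h2 : 0 ≤ (n : ℝ) - m := by
    have : (m : ℝ) ≤ n := by exact_mod_cast hmn
    linarith
  rw [Real.norm_eq_abs, abs_mul, abs_mul, abs_mul, abs_of_nonneg h2, abs_of_pos hpi,
    abs_of_pos (show (0 : ℝ) < 2 by norm_num)]
  linarith [le_refl (2 * Real.pi * |β| * ((n : ℝ) - m))]

/-- From equidistribution in pieces with almost constant phases to exponential sums. -/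
theorem ph_pieces {ι : Type*} (s : Finset ι) (P : ι → Finset ℕ) {A B : Finset ℕ} {c δ D : ℝ}
    (hc : 0 ≤ c) (f : ℕ → ℂ) (hf : ∀ n, ‖f n‖ = 1) (hδ : 0 ≤ δ)
    (hA : ∀ g : ℕ → ℂ, ∑ n ∈ A, g n = ∑ i ∈ s, ∑ n ∈ A ∩ P i, g n)
    (hB : ∀ g : ℕ → ℂ, ∑ n ∈ B, g n = ∑ i ∈ s, ∑ n ∈ P i, g n)
    (hP : ∀ i ∈ s, ∀ m ∈ P i, ∀ n ∈ P i, ‖f n - f m‖ ≤ δ)
    (hD : ∑ i ∈ s, |((A ∩ P i).card : ℝ) - ((P i).card : ℝ) * c| ≤ D) :
    ‖∑ n ∈ A, f n - c * ∑ n ∈ B, f n‖ ≤ D + δ * (A.card + c * B.card) := by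
  classical
  have hAc : (A.card : ℝ) = ∑ i ∈ s, ((A ∩ P i).card : ℝ) := by
    have h := hA fun _ => 1
    simp only [sum_const, nsmul_eq_mul, mul_one] at h
    exact_mod_cast h
  have hBc : (B.card : ℝ) = ∑ i ∈ s, ((P i).card : ℝ) := by
    have h := hB fun _ => 1
    simp only [sum_const, nsmul_eq_mul, mul_one] at h
    exact_mod_cast h
  rw [hA f, hB f, mul_sum, ← sum_sub_distrib]
  refine (norm_sum_le _ _).trans ?_
  have key : ∀ i ∈ s, ‖∑ n ∈ A ∩ P i, f n - (c : ℂ) * ∑ n ∈ P i, f n‖ ≤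
      |((A ∩ P i).card : ℝ) - ((P i).card : ℝ) * c| +
        δ * (((A ∩ P i).card : ℝ) + c * ((P i).card : ℝ)) := by
    intro i hi
    rcases (P i).eq_empty_or_nonempty with h0 | ⟨m, hm⟩
    · simp [h0]
    · have e1 : ∑ n ∈ A ∩ P i, f n - (c : ℂ) * ∑ n ∈ P i, f n =
          ((((A ∩ P i).card : ℝ) - ((P i).card : ℝ) * c : ℝ) : ℂ) * f m +
            (∑ n ∈ A ∩ P i, (f n - f m) - (c : ℂ) * ∑ n ∈ P i, (f n - f m)) := by
        rw [sum_sub_distrib, sum_sub_distrib, sum_const, sum_const, nsmul_eq_mul, nsmul_eq_mul]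
        push_cast
        ring
      rw [e1]
      refine (norm_add_le _ _).trans (add_le_add ?_ ?_)
      · rw [norm_mul, hf, mul_one, Complex.norm_real, Real.norm_eq_abs]
      · refine (norm_sub_le _ _).trans ?_
        have g1 : ‖∑ n ∈ A ∩ P i, (f n - f m)‖ ≤ (A ∩ P i).card * δ := by
          refine (norm_sum_le_of_le _ fun n hn => hP i hi m hm n (mem_inter.1 hn).2).trans ?_
          rw [sum_const, nsmul_eq_mul]
        have g2 : ‖∑ n ∈ P i, (f n - f m)‖ ≤ (P i).card * δ := by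
          refine (norm_sum_le_of_le _ fun n hn => hP i hi m hm n hn).trans ?_
          rw [sum_const, nsmul_eq_mul]
        rw [norm_mul, Complex.norm_real, Real.norm_eq_abs, abs_of_nonneg hc]
        have g3 := mul_le_mul_of_nonneg_left g2 hc
        linarith
  refine (sum_le_sum key).trans ?_
  rw [sum_add_distrib, ← mul_sum, sum_add_distrib, ← mul_sum, ← hAc, ← hBc]
  linarith

theorem piece_sum_fun (N q T : ℕ) (hq : 1 ≤ q) (τ : ℕ → ℕ) (hT : ∀ n ∈ Icc 1 N, τ n < T)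
    {B : Finset ℕ} (hB : B ⊆ Icc 1 N) (g : ℕ → ℂ) :
    ∑ n ∈ B, g n = ∑ i ∈ range q ×ˢ range T, ∑ n ∈ B ∩ piece N q τ i, g n := by
  classical
  have h1 := sum_fiberwise_of_maps_to (s := B) (t := range q ×ˢ range T)
    (g := fun n => (n % q, τ n)) (f := g) (by
      intro n hn
      rw [mem_product, mem_range, mem_range]
      exact ⟨Nat.mod_lt _ (by omega), hT n (hB hn)⟩)
  rw [← h1]
  refine sum_congr rfl fun i _ => ?_
  congr 1
  ext n
  simp only [piece, mem_inter, mem_filter, Prod.ext_iff]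
  constructor
  · rintro ⟨h2, h3⟩
    exact ⟨h2, hB h2, h3⟩
  · rintro ⟨h2, -, h3⟩
    exact ⟨h2, h3⟩

/-- Blocks of length `H`. -/
theorem div_mono (H : ℕ) : Monotone fun n : ℕ => n / H := fun _ _ h => Nat.div_le_div_right h

/-- One major arc, for given blocks. -/
theorem arc_block {e M S δ : ℝ} {N q H : ℕ} (hq : 1 ≤ q) (hH : 1 ≤ H)
    (hS : (q : ℝ) * ((N / H + 1 : ℕ) : ℝ) ≤ S)
    (h : LinAt e M N) (he : 0 ≤ e) (he1 : e ≤ 1) (hM : 1 ≤ M) (hN : 1 ≤ N)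
    {A : Finset ℕ} (hA : APFree A) (hAN : A ⊆ Icc 1 N) (hAc : (1 - e) * r3 N ≤ A.card)
    (b : ℤ) (β : ℝ) (hδ : 0 ≤ δ)
    (hβ : ∀ m n : ℕ, m ≤ n → m / H = n / H → q ∣ n - m →
      2 * Real.pi * |β| * ((n : ℝ) - m) ≤ δ) :
    ‖∑ n ∈ A, ph ((b : ℝ) / q + β) n - ((A.card : ℝ) / N : ℝ) *
      ∑ n ∈ Icc 1 N, ph ((b : ℝ) / q + β) n‖ ≤ 4 * (e + S / M) * r3 N + 2 * δ * A.card := by
  have hN0 : (0 : ℝ) < N := by exact_mod_cast hN
  have hT : ∀ n ∈ Icc 1 N, n / H < N / H + 1 := fun n hn =>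
    Nat.lt_succ_of_le (Nat.div_le_div_right (mem_Icc.1 hn).2)
  have hpc := piece_core (q := q) (T := N / H + 1) (S := S) hq (div_mono H) hT hS
    h he he1 hM hN hA hAN hAc
  have h1 := ph_pieces (range q ×ˢ range (N / H + 1)) (piece N q fun n => n / H) (A := A)
    (B := Icc 1 N) (c := (A.card : ℝ) / N) (δ := δ) (D := 4 * (e + S / M) * r3 N)
    (by positivity) (ph ((b : ℝ) / q + β)) (ph_norm _) hδ
    (piece_sum_fun N q _ hq _ hT hAN)
    (fun g => by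
      rw [piece_sum_fun N q _ hq _ hT (Subset.refl _) g]
      refine sum_congr rfl fun i _ => ?_
      rw [inter_eq_right.2 (piece_sub N q _ i)])
    (by
      intro i _ m hm n hn
      have h2 := (mem_filter.1 hm).2
      have h3 := (mem_filter.1 hn).2
      rcases le_total m n with hmn | hmn
      · have hd : q ∣ n - m := (Nat.modEq_iff_dvd' hmn).1 (h2.1.trans h3.1.symm)
        exact (ph_sub hq b β hmn hd).trans (hβ m n hmn (h2.2.trans h3.2.symm) hd)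
      · have hd : q ∣ m - n := (Nat.modEq_iff_dvd' hmn).1 (h3.1.trans h2.1.symm)
        rw [norm_sub_rev]
        exact (ph_sub hq b β hmn hd).trans (hβ n m hmn (h3.2.trans h2.2.symm) hd))
    (by
      refine le_trans (le_of_eq ?_) hpc
      refine sum_congr rfl fun i _ => ?_
      congr 2
      ring)
  refine h1.trans ?_
  rw [Nat.card_Icc, Nat.add_sub_cancel, div_mul_cancel₀ _ hN0.ne']
  linarith

end Pool.Agent.MP_0f71ae_nt.Fine
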