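import Pool.Agent.MP_0f71ae_nt.Cnt.Lin2

/-!
# Partitions of `{1, …, N}` into few progressions: the core inequality

* `IsAP P`: `P = {a, a + q, …, a + q (m - 1)}` with `q ≥ 1`.
* `core`: a nearly extremal progression-free set is equidistributed, with an error summed over all
  pieces, in every partition of `{1, …, N}` into few progressions, if `r₃` is almost linear at `N`.
-/

set_option autoImplicit false

namespace Pool.Agent.MP_0f71ae_nt.Fine

open Finset Pool.Agent.MP_0f71ae_nt.Reg Pool.Agent.MP_0f71ae_nt.Cnt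

/-- `P` is an arithmetic progression `a, a + q, …, a + q (m - 1)` with `q ≥ 1`. -/
def IsAP (P : Finset ℕ) : Prop :=
  ∃ a q m : ℕ, 1 ≤ q ∧ P = (Finset.range m).image (fun j => a + q * j)

theorem IsAP.card_inter_le {A P : Finset ℕ} (hA : APFree A) (hP : IsAP P) :
    (A ∩ P).card ≤ r3 P.card := by
  classical
  obtain ⟨a, q, m, hq, rfl⟩ := hP
  have hinj : Function.Injective (fun j : ℕ => a + q * j) := by
    intro x y hxy
    have h : q * x = q * y := by simpa using hxy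
    exact Nat.eq_of_mul_eq_mul_left (by omega) h
  rw [card_image_of_injective _ hinj, card_range]
  refine le_trans (card_le_card ?_) (card_inter_ap_le hA a q m hq)
  intro x hx
  rw [mem_inter, mem_image] at hx
  obtain ⟨hxA, j, hj, rfl⟩ := hx
  rw [mem_filter]
  exact ⟨hxA, j, mem_range.1 hj, rfl⟩

theorem r3_le_of_lin {e M : ℝ} {N : ℕ} (h : LinAt e M N) (he : 0 ≤ e) (hM : 1 ≤ M) (hN : 1 ≤ N)
    {m : ℕ} (hm : m ≤ N) : (r3 m : ℝ) ≤ (1 + e) * ((m : ℝ) / N + 1 / M) * r3 N := by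
  have hN0 : (0 : ℝ) < N := by exact_mod_cast hN
  have hM0 : 0 < M := by linarith
  have hr : (0 : ℝ) ≤ r3 N := Nat.cast_nonneg _
  by_cases hc : 1 / M ≤ (m : ℝ) / N
  · have h1 : (m : ℝ) / N ≤ M := by
      refine le_trans ?_ hM
      rw [div_le_one hN0]
      exact_mod_cast hm
    have h2 := h _ hc h1
    rw [div_mul_cancel₀ _ hN0.ne', Nat.floor_natCast] at h2
    have h3 := (abs_le.1 h2).2
    have h4 : 0 ≤ (1 + e) * (1 / M) * r3 N := by positivity
    linarith
  · push Not at hc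
    have h2 := h (1 / M) le_rfl (by rw [div_le_iff₀ hM0]; nlinarith)
    have h3 := (abs_le.1 h2).2
    have h4 : m ≤ ⌊1 / M * (N : ℝ)⌋₊ := by
      apply Nat.le_floor
      rw [div_lt_iff₀ hN0] at hc
      linarith
    have h5 : (r3 m : ℝ) ≤ r3 ⌊1 / M * (N : ℝ)⌋₊ := by exact_mod_cast r3_mono h4
    have h6 : 0 ≤ (1 + e) * ((m : ℝ) / N) * r3 N := by positivity
    linarith

theorem core {ι : Type*} (s : Finset ι) (P : ι → Finset ℕ) {e M S : ℝ} {N : ℕ}
    (h : LinAt e M N) (he : 0 ≤ e) (he1 : e ≤ 1) (hM : 1 ≤ M) (hN : 1 ≤ N)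
    (hs : (s.card : ℝ) ≤ S) (hP : ∀ i ∈ s, IsAP (P i)) (hsub : ∀ i ∈ s, P i ⊆ Icc 1 N)
    {A : Finset ℕ} (hA : APFree A) (hAc : (1 - e) * r3 N ≤ A.card)
    (hAr : (A.card : ℝ) ≤ r3 N) (h1 : ∑ i ∈ s, ((P i).card : ℝ) = N)
    (h2 : ∑ i ∈ s, ((A ∩ P i).card : ℝ) = A.card) :
    ∑ i ∈ s, |((A ∩ P i).card : ℝ) - ((P i).card : ℝ) / N * A.card| ≤
      4 * (e + S / M) * r3 N := by
  have hN0 : (0 : ℝ) < N := by exact_mod_cast hN
  have hM0 : 0 < M := by linarith
  have hr : (0 : ℝ) ≤ r3 N := Nat.cast_nonneg _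
  have key : ∀ i ∈ s, |((A ∩ P i).card : ℝ) - ((P i).card : ℝ) / N * A.card| ≤
      (2 * (1 + e) * r3 N - A.card) * (((P i).card : ℝ) / N) + 2 * (1 + e) / M * r3 N -
        ((A ∩ P i).card : ℝ) := by
    intro i hi
    have b2 : (P i).card ≤ N := by simpa using card_le_card (hsub i hi)
    have a1 : ((A ∩ P i).card : ℝ) ≤
        (1 + e) * (((P i).card : ℝ) / N + 1 / M) * r3 N := by
      have b1 : ((A ∩ P i).card : ℝ) ≤ r3 (P i).card := by
        exact_mod_cast (hP i hi).card_inter_le hA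
      exact b1.trans (r3_le_of_lin h he hM hN b2)
    have a2 : ((P i).card : ℝ) / N * A.card ≤
        (1 + e) * (((P i).card : ℝ) / N + 1 / M) * r3 N := by
      have c1 : 0 ≤ ((P i).card : ℝ) / N := by positivity
      have c2 : ((P i).card : ℝ) / N * A.card ≤ ((P i).card : ℝ) / N * r3 N :=
        mul_le_mul_of_nonneg_left hAr c1
      have c3 : 0 ≤ e * (((P i).card : ℝ) / N + 1 / M) * r3 N := by positivity
      have c4 : 0 ≤ 1 / M * (r3 N : ℝ) := by positivity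
      linarith
    have e1 : (2 * (1 + e) * (r3 N : ℝ) - A.card) * (((P i).card : ℝ) / N) +
        2 * (1 + e) / M * r3 N - ((A ∩ P i).card : ℝ) =
        2 * ((1 + e) * (((P i).card : ℝ) / N + 1 / M) * r3 N -
          ((P i).card : ℝ) / N * A.card) -
          (((A ∩ P i).card : ℝ) - ((P i).card : ℝ) / N * A.card) := by ring
    rw [e1, abs_le]
    constructor <;> linarith
  refine (sum_le_sum key).trans ?_
  have e2 : ∑ i ∈ s, ((P i).card : ℝ) / N = 1 := by
    rw [← sum_div, h1, div_self hN0.ne']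
  rw [sum_sub_distrib, sum_add_distrib, ← mul_sum, sum_const, nsmul_eq_mul, e2, h2]
  have e3 : (s.card : ℝ) * (2 * (1 + e) / M * r3 N) ≤ 4 * (S / M) * r3 N := by
    have g1 : (s.card : ℝ) * (2 * (1 + e) / M * r3 N) = (s.card : ℝ) * (2 * (1 + e)) *
        (r3 N / M) := by ring
    have g2 : 4 * (S / M) * (r3 N : ℝ) = S * 4 * (r3 N / M) := by ring
    rw [g1, g2]
    apply mul_le_mul_of_nonneg_right _ (by positivity)
    have g3 : (0 : ℝ) ≤ s.card := Nat.cast_nonneg _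
    nlinarith
  linarith

/-- A finite set which is convex within a residue class is a progression. -/
theorem isAP_of_convex {B : Finset ℕ} {q : ℕ} (hq : 1 ≤ q)
    (hmod : ∀ x ∈ B, ∀ y ∈ B, x ≤ y → q ∣ y - x)
    (hconv : ∀ x ∈ B, ∀ y ∈ B, ∀ z, x ≤ z → z ≤ y → q ∣ z - x → z ∈ B) : IsAP B := by
  classical
  rcases B.eq_empty_or_nonempty with rfl | hB
  · exact ⟨0, 1, 0, le_rfl, by simp⟩
  · refine ⟨B.min' hB, q, (B.max' hB - B.min' hB) / q + 1, hq, ?_⟩
    ext x
    rw [mem_image]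
    constructor
    · intro hx
      have h1 := B.min'_le x hx
      have h2 := B.le_max' x hx
      obtain ⟨c, hc⟩ := hmod _ (B.min'_mem hB) x hx h1
      refine ⟨c, ?_, by omega⟩
      rw [mem_range, Nat.lt_succ_iff, Nat.le_div_iff_mul_le (by omega), mul_comm]
      omega
    · rintro ⟨j, hj, rfl⟩
      rw [mem_range, Nat.lt_succ_iff, Nat.le_div_iff_mul_le (by omega), mul_comm] at hj
      have h2 : B.min' hB ≤ B.max' hB := B.min'_le _ (B.max'_mem hB)
      refine hconv _ (B.min'_mem hB) _ (B.max'_mem hB) _ (by omega) (by omega) ?_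
      exact ⟨j, by omega⟩

/-- The pieces of the partition: residue classes modulo `q`, cut by a monotone function. -/
def piece (N q : ℕ) (τ : ℕ → ℕ) (i : ℕ × ℕ) : Finset ℕ :=
  (Icc 1 N).filter fun n => n % q = i.1 ∧ τ n = i.2

theorem piece_sub (N q : ℕ) (τ : ℕ → ℕ) (i : ℕ × ℕ) : piece N q τ i ⊆ Icc 1 N := filter_subset _ _

theorem piece_ap (N : ℕ) {q : ℕ} (hq : 1 ≤ q) {τ : ℕ → ℕ} (hτ : Monotone τ) (i : ℕ × ℕ) :
    IsAP (piece N q τ i) := by
  apply isAP_of_convex hq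
  · intro x hx y hy hxy
    have h1 := (mem_filter.1 hx).2.1
    have h2 := (mem_filter.1 hy).2.1
    exact (Nat.modEq_iff_dvd' hxy).1 (h1.trans h2.symm)
  · intro x hx y hy z hxz hzy hd
    have h1 := mem_filter.1 hx
    have h2 := mem_filter.1 hy
    have h3 := mem_Icc.1 h1.1
    have h4 := mem_Icc.1 h2.1
    refine mem_filter.2 ⟨mem_Icc.2 ⟨by omega, by omega⟩, ?_, ?_⟩
    · have h5 : x % q = z % q := (Nat.modEq_iff_dvd' hxz).2 hd
      rw [← h5]
      exact h1.2.1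
    · exact le_antisymm ((hτ hzy).trans h2.2.2.le) (h1.2.2.ge.trans (hτ hxz))

theorem piece_sum (N q T : ℕ) (hq : 1 ≤ q) (τ : ℕ → ℕ) (hT : ∀ n ∈ Icc 1 N, τ n < T)
    {B : Finset ℕ} (hB : B ⊆ Icc 1 N) :
    ∑ i ∈ range q ×ˢ range T, ((B ∩ piece N q τ i).card : ℝ) = B.card := by
  classical
  have h1 : B.card = ∑ i ∈ range q ×ˢ range T, (B.filter fun n => (n % q, τ n) = i).card := by
    apply card_eq_sum_card_fiberwise
    intro n hn
    have hn' : n ∈ B := hn
    simp only [coe_product, coe_range, Set.mem_prod, Set.mem_Iio]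
    exact ⟨Nat.mod_lt _ (by omega), hT n (hB hn')⟩
  rw [h1]
  push_cast
  refine sum_congr rfl fun i _ => ?_
  congr 2
  ext n
  simp only [piece, mem_inter, mem_filter, Prod.ext_iff]
  constructor
  · rintro ⟨h2, -, h3⟩
    exact ⟨h2, h3⟩
  · rintro ⟨h2, h3⟩
    exact ⟨h2, hB h2, h3⟩

theorem piece_core {e M S : ℝ} {N q T : ℕ} (hq : 1 ≤ q) {τ : ℕ → ℕ} (hτ : Monotone τ)
    (hT : ∀ n ∈ Icc 1 N, τ n < T) (hS : (q : ℝ) * T ≤ S)
    (h : LinAt e M N) (he : 0 ≤ e) (he1 : e ≤ 1) (hM : 1 ≤ M) (hN : 1 ≤ N)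
    {A : Finset ℕ} (hA : APFree A) (hAN : A ⊆ Icc 1 N) (hAc : (1 - e) * r3 N ≤ A.card) :
    ∑ i ∈ range q ×ˢ range T, |((A ∩ piece N q τ i).card : ℝ) -
      ((piece N q τ i).card : ℝ) / N * A.card| ≤ 4 * (e + S / M) * r3 N := by
  refine core _ (piece N q τ) h he he1 hM hN ?_ (fun i _ => piece_ap N hq hτ i)
    (fun i _ => piece_sub N q τ i) hA hAc (by exact_mod_cast card_le_r3 hAN hA) ?_ ?_
  · rw [card_product, card_range, card_range]
    push_cast
    exact hS
  · have h1 := piece_sum N q T hq τ hT (B := Icc 1 N) (Subset.refl _)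
    rw [Nat.card_Icc, Nat.add_sub_cancel] at h1
    rw [← h1]
    refine sum_congr rfl fun i _ => ?_
    rw [inter_eq_right.2 (piece_sub N q τ i)]
  · exact piece_sum N q T hq τ hT hAN

end Pool.Agent.MP_0f71ae_nt.Fine
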