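import Pool.Agent.MP_0f71ae_nt.Fine.Arc

/-!
# Nearly extremal sets are equidistributed in fine partitions and on major arcs
-/

set_option autoImplicit false

namespace Pool.Agent.MP_0f71ae_nt.Fine

open Finset Pool.Agent.MP_0f71ae_nt.Reg Pool.Agent.MP_0f71ae_nt.Cnt

/-- The set `A ⊆ {1, …, N}` is equidistributed, with errors at most `ε |A|`:
* in every partition of `{1, …, N}` into at most `L` progressions, the errors being summed over the
  pieces;
* in every progression;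
* its exponential sum agrees with the one of `{1, …, N}` on all major arcs of height `L`. -/
def Even (ε L : ℝ) (N : ℕ) (A : Finset ℕ) : Prop :=
  (∀ Q : Finpartition (Finset.Icc 1 N), (Q.parts.card : ℝ) ≤ L → (∀ P ∈ Q.parts, IsAP P) →
    ∑ P ∈ Q.parts, |((A ∩ P).card : ℝ) - (P.card : ℝ) / N * A.card| ≤ ε * A.card) ∧
  (∀ P : Finset ℕ, IsAP P → P ⊆ Finset.Icc 1 N →
    |((A ∩ P).card : ℝ) - (P.card : ℝ) / N * A.card| ≤ ε * A.card) ∧
  ∀ (b : ℤ) (q : ℕ) (β : ℝ), 1 ≤ q → (q : ℝ) ≤ L → |β| ≤ L / N →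
    ‖∑ n ∈ A, ph ((b : ℝ) / q + β) n - ((A.card : ℝ) / N : ℝ) *
      ∑ n ∈ Finset.Icc 1 N, ph ((b : ℝ) / q + β) n‖ ≤ ε * A.card

/-- The major arcs. -/
theorem arc {e L S M : ℝ} {N q : ℕ} (he : 0 < e) (he1 : e ≤ 1) (hL : 1 ≤ L) (hM : 1 ≤ M)
    (hN : 1 ≤ N) (hS : 16 * L ^ 2 / e ≤ S) (h : LinAt e M N)
    {A : Finset ℕ} (hA : APFree A) (hAN : A ⊆ Icc 1 N) (hAc : (1 - e) * r3 N ≤ A.card)
    (b : ℤ) (β : ℝ) (hq : 1 ≤ q) (hqL : (q : ℝ) ≤ L) (hβ : |β| ≤ L / N) :
    ‖∑ n ∈ A, ph ((b : ℝ) / q + β) n - ((A.card : ℝ) / N : ℝ) *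
      ∑ n ∈ Icc 1 N, ph ((b : ℝ) / q + β) n‖ ≤ 4 * (e + S / M) * r3 N + 2 * e * A.card := by
  have hN0 : (0 : ℝ) < N := by exact_mod_cast hN
  have hL0 : (0 : ℝ) < L := by linarith
  have hq0 : (0 : ℝ) < q := by exact_mod_cast hq
  have hpi : Real.pi < 3.15 := Real.pi_lt_d2
  have hpi0 : 0 < Real.pi := Real.pi_pos
  have hLL : L ≤ L ^ 2 / e := by
    rw [le_div_iff₀ he]
    nlinarith
  rcases le_or_gt (N : ℝ) (7 * L ^ 2 / e) with hc | hc
  · -- blocks of length q
    refine arc_block hq hq ?_ h he.le he1 hM hN hA hAN hAc b β he.le ?_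
    · refine le_trans ?_ hS
      have h1 : (q : ℝ) * ((N / q : ℕ) : ℝ) ≤ N := by exact_mod_cast Nat.mul_div_le N q
      have h2 : (q : ℝ) * ((N / q + 1 : ℕ) : ℝ) = (q : ℝ) * ((N / q : ℕ) : ℝ) + q := by
        push_cast
        ring
      rw [h2]
      have h3 : 16 * L ^ 2 / e = 7 * L ^ 2 / e + 9 * (L ^ 2 / e) := by ring
      rw [h3]
      nlinarith
    · intro m n hmn hmod hd
      have h1 : m = n := by
        obtain ⟨c, hc⟩ := hd
        have h2 : n = m + q * c := by omega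
        rw [h2, Nat.add_mul_div_left _ _ (by omega)] at hmod
        have h3 : c = 0 := by omega
        rw [h2, h3]
        simp
      rw [h1, sub_self, mul_zero]
      exact he.le
  · -- blocks of length q h
    obtain ⟨x, hx⟩ : ∃ x : ℝ, x = e * N / (7 * L * q) := ⟨_, rfl⟩
    have hx1 : 1 ≤ x := by
      rw [hx, le_div_iff₀ (by positivity), one_mul]
      rw [div_lt_iff₀ he] at hc
      have h1 : 7 * L * q ≤ 7 * L ^ 2 := by nlinarith
      linarith
    have hf1 : 1 ≤ ⌊x⌋₊ := Nat.le_floor (by exact_mod_cast hx1)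
    have hfx : (⌊x⌋₊ : ℝ) ≤ x := Nat.floor_le (by linarith)
    have hfx2 : x ≤ 2 * (⌊x⌋₊ : ℝ) := by
      have h1 := Nat.lt_floor_add_one x
      have h2 : (1 : ℝ) ≤ ⌊x⌋₊ := by exact_mod_cast hf1
      linarith
    obtain ⟨g, hg⟩ : ∃ g : ℕ, g = ⌊x⌋₊ := ⟨_, rfl⟩
    rw [← hg] at hf1 hfx hfx2
    have hg0 : (0 : ℝ) < g := by exact_mod_cast hf1
    have hqg : 1 ≤ q * g := Nat.one_le_iff_ne_zero.2 (Nat.mul_ne_zero (by omega) (by omega))
    refine arc_block hq hqg ?_ h he.le he1 hM hN hA hAN hAc b β he.le ?_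
    · refine le_trans ?_ hS
      have h1 : ((N / (q * g) : ℕ) : ℝ) ≤ N / (q * g : ℝ) := by
        have := Nat.cast_div_le (α := ℝ) (m := N) (n := q * g)
        push_cast at this
        exact this
      have h2 : (q : ℝ) * ((N / (q * g) + 1 : ℕ) : ℝ) ≤ N / g + q := by
        push_cast
        have h3 : (q : ℝ) * (N / (q * g : ℝ) + 1) = N / g + q := by
          field_simp
        rw [← h3]
        apply mul_le_mul_of_nonneg_left _ hq0.le
        linarith
      refine h2.trans ?_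
      have h4 : (N : ℝ) / g ≤ 14 * (L ^ 2 / e) := by
        rw [div_le_iff₀ hg0]
        have h5 : e * N ≤ 14 * L ^ 2 * g := by
          have h6 : e * N = x * (7 * L * q) := by
            rw [hx]
            field_simp
          rw [h6]
          have h7 : x * (7 * L * q) ≤ (2 * g) * (7 * L * L) := by
            apply mul_le_mul hfx2 _ (by positivity) (by positivity)
            nlinarith
          nlinarith
        have h8 : 14 * (L ^ 2 / e) * g = 14 * L ^ 2 * g / e := by ring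
        rw [h8, le_div_iff₀ he]
        linarith
      have h9 : 16 * L ^ 2 / e = 16 * (L ^ 2 / e) := by ring
      rw [h9]
      have h10 : 0 ≤ L ^ 2 / e := by positivity
      linarith
    · intro m n hmn hmod _
      have h1 : n - m < q * g := by
        have h2 := Nat.div_add_mod m (q * g)
        have h3 := Nat.div_add_mod n (q * g)
        have h4 := Nat.mod_lt n (show q * g > 0 by omega)
        rw [hmod] at h2
        omega
      have h2 : (n : ℝ) - m ≤ q * g := by
        have h3 : n ≤ m + q * g := by omega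
        have h4 : (n : ℝ) ≤ m + q * g := by exact_mod_cast h3
        linarith
      have h0 : 0 ≤ (n : ℝ) - m := by
        have : (m : ℝ) ≤ n := by exact_mod_cast hmn
        linarith
      have h3 : |β| * ((n : ℝ) - m) ≤ L / N * (q * x) := by
        apply mul_le_mul hβ _ h0 (by positivity)
        exact h2.trans (mul_le_mul_of_nonneg_left hfx hq0.le)
      have h4 : L / N * (q * x) = e / 7 := by
        rw [hx]
        field_simp
      rw [h4] at h3
      have h5 : 2 * Real.pi * |β| * ((n : ℝ) - m) = 2 * Real.pi * (|β| * ((n : ℝ) - m)) := by ring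
      rw [h5]
      have h6 : 2 * Real.pi * (|β| * ((n : ℝ) - m)) ≤ 2 * Real.pi * (e / 7) :=
        mul_le_mul_of_nonneg_left h3 (by positivity)
      nlinarith

/-- At the scales where `r₃` is almost linear. -/
theorem even_of_lin {ε L : ℝ} {N : ℕ} (hε : 0 < ε) (hε1 : ε ≤ 1) (hL : 1 ≤ L) (hN : 1 ≤ N)
    (h : LinAt (ε / 11) (16 * L ^ 2 / (ε / 11) / (ε / 11)) N) {A : Finset ℕ} (hA : APFree A)
    (hAN : A ⊆ Icc 1 N) (hAc : (1 - ε / 11) * r3 N ≤ A.card) : Even ε L N A := by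
  obtain ⟨e, he⟩ : ∃ e : ℝ, e = ε / 11 := ⟨_, rfl⟩
  rw [← he] at h hAc
  have he0 : 0 < e := by rw [he]; positivity
  have he1 : e ≤ 1 / 11 := by rw [he]; linarith
  have hεe : ε = 11 * e := by rw [he]; ring
  obtain ⟨S, hS⟩ : ∃ S : ℝ, S = 16 * L ^ 2 / e := ⟨_, rfl⟩
  rw [← hS] at h
  have hS16 : 16 / e ≤ S := by
    rw [hS]
    apply div_le_div_of_nonneg_right _ he0.le
    nlinarith
  have hSL : L ≤ S := by
    rw [hS, le_div_iff₀ he0]
    nlinarith
  have hS0 : 0 < S := by linarith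
  have hSM : S / (S / e) = e := by field_simp
  have hM : 1 ≤ S / e := by
    rw [le_div_iff₀ he0]
    linarith
  have hr : (r3 N : ℝ) ≤ 11 / 10 * A.card := by
    have hr0 : (0 : ℝ) ≤ r3 N := Nat.cast_nonneg _
    nlinarith
  have hA0 : (0 : ℝ) ≤ A.card := Nat.cast_nonneg _
  have hb : 4 * (e + S / (S / e)) * (r3 N : ℝ) ≤ 9 * e * A.card := by
    rw [hSM]
    have h1 : 4 * (e + e) * (r3 N : ℝ) ≤ 4 * (e + e) * (11 / 10 * A.card) :=
      mul_le_mul_of_nonneg_left hr (by positivity)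
    have h2 : 0 ≤ e * (A.card : ℝ) := mul_nonneg he0.le hA0
    linarith
  have heA : 0 ≤ e * (A.card : ℝ) := mul_nonneg he0.le hA0
  refine ⟨fun Q hQ hQP => ?_, fun P hP hPN => ?_, fun b q β hq hqL hβ => ?_⟩
  · have h1 := fin_core h he0.le (by linarith) hM hN hA hAN hAc Q (hQ.trans hSL) hQP
    rw [hεe]
    linarith
  · have h1 := ap_core h he0 (by linarith) hM hN (le_trans (by
      apply div_le_div_of_nonneg_right _ he0.le
      norm_num) hS16) hA hAN hAc hP hPN
    rw [hεe]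
    linarith
  · have h1 := arc he0 (by linarith) hL hM hN hS.ge h hA hAN hAc b β hq hqL hβ
    rw [hεe]
    linarith

/-- The law. -/
theorem law : ∃ C : ℝ, ∀ ε : ℝ, 0 < ε → ε ≤ 1 → ∀ L : ℝ, 1 ≤ L → ∀ a K : ℕ,
    ((badScales (fun N => ∀ A ⊆ Finset.Icc 1 N, APFree A → (1 - ε / 11) * r3 N ≤ A.card →
      Even ε L N A) a K).card : ℝ) ≤ C * (1 + Real.log (L / ε)) / ε * √K := by
  refine ⟨10 ^ 6, fun ε hε hε1 L hL a K => ?_⟩
  have he0 : 0 < ε / 11 := by positivity
  have hM : 1 ≤ 16 * L ^ 2 / (ε / 11) / (ε / 11) := by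
    rw [le_div_iff₀ he0, le_div_iff₀ he0]
    nlinarith
  have h1 := scale_linear_win (ε / 11) he0 (by linarith)
    (16 * L ^ 2 / (ε / 11) / (ε / 11)) hM a K
  have h2 : (badScales (fun N => ∀ A ⊆ Finset.Icc 1 N, APFree A →
      (1 - ε / 11) * r3 N ≤ A.card → Even ε L N A) a K).card ≤
      (badScales (LinAt (ε / 11) (16 * L ^ 2 / (ε / 11) / (ε / 11))) a K).card := by
    classical
    apply card_le_card
    intro k hk
    simp only [badScales, mem_filter] at hk ⊢
    refine ⟨hk.1, fun hall => hk.2 fun N hN hN2 A hAN hA hAc => ?_⟩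
    exact even_of_lin hε hε1 hL (Nat.one_le_two_pow.trans hN) (hall N hN hN2) hA hAN hAc
  have h3 : Real.log (16 * L ^ 2 / (ε / 11) / (ε / 11) / (ε / 11)) ≤
      10 + 3 * Real.log (L / ε) := by
    have e1 : 16 * L ^ 2 / (ε / 11) / (ε / 11) / (ε / 11) = 21296 * (L ^ 2 / ε ^ 3) := by
      field_simp
      ring
    have e2 : L ^ 2 / ε ^ 3 ≤ (L / ε) ^ 3 := by
      rw [div_pow]
      apply div_le_div_of_nonneg_right _ (by positivity)
      exact pow_le_pow_right₀ hL (by norm_num)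
    have e3 : Real.log 21296 ≤ 10 := by
      rw [Real.log_le_iff_le_exp (by norm_num)]
      have h4 : (2.7182818283 : ℝ) ^ 10 ≤ Real.exp 1 ^ 10 :=
        pow_le_pow_left₀ (by norm_num) Real.exp_one_gt_d9.le 10
      rw [← Real.exp_nat_mul] at h4
      norm_num at h4 ⊢
      linarith
    have hLε : 0 < L / ε := by positivity
    have hpos : 0 < L ^ 2 / ε ^ 3 := by positivity
    rw [e1, Real.log_mul (by norm_num) hpos.ne']
    have e4 : Real.log (L ^ 2 / ε ^ 3) ≤ 3 * Real.log (L / ε) := by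
      have := Real.log_le_log hpos e2
      rw [Real.log_pow] at this
      push_cast at this
      exact this
    linarith
  have h4 : 0 ≤ Real.log (L / ε) := by
    apply Real.log_nonneg
    rw [le_div_iff₀ hε]
    linarith
  have h5 : ((badScales (fun N => ∀ A ⊆ Finset.Icc 1 N, APFree A →
      (1 - ε / 11) * r3 N ≤ A.card → Even ε L N A) a K).card : ℝ) ≤
      ((badScales (LinAt (ε / 11) (16 * L ^ 2 / (ε / 11) / (ε / 11))) a K).card : ℝ) := by
    exact_mod_cast h2
  refine h5.trans (h1.trans ?_)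
  apply mul_le_mul_of_nonneg_right _ (Real.sqrt_nonneg _)
  have h6 : 1680 * (1 + Real.log (16 * L ^ 2 / (ε / 11) / (ε / 11) / (ε / 11))) / (ε / 11) =
      18480 * (1 + Real.log (16 * L ^ 2 / (ε / 11) / (ε / 11) / (ε / 11))) / ε := by
    field_simp
    ring
  rw [h6]
  apply div_le_div_of_nonneg_right _ hε.le
  nlinarith

end Pool.Agent.MP_0f71ae_nt.Fine
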