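import Pool.Agent.MP_0f71ae_nt.Fine.Core

/-!
# Partitions and single progressions
-/

set_option autoImplicit false

namespace Pool.Agent.MP_0f71ae_nt.Fine

open Finset Pool.Agent.MP_0f71ae_nt.Reg Pool.Agent.MP_0f71ae_nt.Cnt

/-- Every partition of `{1, …, N}` into at most `S` progressions. -/
theorem fin_core {e M S : ℝ} {N : ℕ}
    (h : LinAt e M N) (he : 0 ≤ e) (he1 : e ≤ 1) (hM : 1 ≤ M) (hN : 1 ≤ N)
    {A : Finset ℕ} (hA : APFree A) (hAN : A ⊆ Icc 1 N) (hAc : (1 - e) * r3 N ≤ A.card)
    (Q : Finpartition (Icc 1 N)) (hS : (Q.parts.card : ℝ) ≤ S) (hQ : ∀ P ∈ Q.parts, IsAP P) :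
    ∑ P ∈ Q.parts, |((A ∩ P).card : ℝ) - (P.card : ℝ) / N * A.card| ≤
      4 * (e + S / M) * r3 N := by
  classical
  refine core Q.parts (fun P => P) h he he1 hM hN hS hQ (fun P hP => Q.le hP) hA hAc
    (by exact_mod_cast card_le_r3 hAN hA) ?_ ?_
  · have h1 := Q.sum_card_parts
    rw [Nat.card_Icc, Nat.add_sub_cancel] at h1
    exact_mod_cast h1
  · have h1 : A = Q.parts.biUnion fun P => A ∩ P := by
      ext x
      rw [mem_biUnion]
      constructor
      · intro hx
        have h2 : x ∈ Q.parts.biUnion id := by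
          rw [Q.biUnion_parts]
          exact hAN hx
        obtain ⟨P, hP, hxP⟩ := mem_biUnion.1 h2
        exact ⟨P, hP, mem_inter.2 ⟨hx, hxP⟩⟩
      · rintro ⟨P, -, hx⟩
        exact (mem_inter.1 hx).1
    have h2 : (Q.parts.biUnion fun P => A ∩ P).card = ∑ P ∈ Q.parts, (A ∩ P).card := by
      apply card_biUnion
      intro P hP P' hP' hne
      exact (Q.disjoint hP hP' hne).mono inter_subset_right inter_subset_right
    rw [← h1] at h2
    exact_mod_cast h2.symm

/-- The three parts of the line before, in and after a progression. -/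
def cut3 (a b n : ℕ) : ℕ := if n < a then 0 else if n < b then 1 else 2

theorem cut3_mono {a b : ℕ} (_ : a ≤ b) : Monotone (cut3 a b) := by
  intro x y hxy
  unfold cut3
  split_ifs <;> omega

/-- Every progression. -/
theorem ap_core {e M S : ℝ} {N : ℕ}
    (h : LinAt e M N) (he : 0 < e) (he1 : e ≤ 1) (hM : 1 ≤ M) (hN : 1 ≤ N) (hS : 6 / e ≤ S)
    {A : Finset ℕ} (hA : APFree A) (hAN : A ⊆ Icc 1 N) (hAc : (1 - e) * r3 N ≤ A.card)
    {P : Finset ℕ} (hP : IsAP P) (hPN : P ⊆ Icc 1 N) :
    |((A ∩ P).card : ℝ) - (P.card : ℝ) / N * A.card| ≤ 4 * (e + S / M) * r3 N := by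
  classical
  have hN0 : (0 : ℝ) < N := by exact_mod_cast hN
  have hM0 : 0 < M := by linarith
  have hr : (0 : ℝ) ≤ r3 N := Nat.cast_nonneg _
  have hAr : (A.card : ℝ) ≤ r3 N := by exact_mod_cast card_le_r3 hAN hA
  have hPc : P.card ≤ N := by simpa using card_le_card hPN
  have hS6 : 6 ≤ S := le_trans (by rw [le_div_iff₀ he]; nlinarith) hS
  by_cases hsm : (P.card : ℝ) / N ≤ e
  · -- a short progression
    have a1 : ((A ∩ P).card : ℝ) ≤ (1 + e) * ((P.card : ℝ) / N + 1 / M) * r3 N := by
      have b1 : ((A ∩ P).card : ℝ) ≤ r3 P.card := by exact_mod_cast hP.card_inter_le hA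
      exact b1.trans (r3_le_of_lin h he.le hM hN hPc)
    have a2 : (1 + e) * ((P.card : ℝ) / N + 1 / M) * r3 N ≤ 2 * (e + S / M) * r3 N := by
      apply mul_le_mul_of_nonneg_right _ hr
      have b3 : (P.card : ℝ) / N + 1 / M ≤ e + S / M := by
        have : 1 / M ≤ S / M := by
          apply div_le_div_of_nonneg_right _ hM0.le
          linarith
        linarith
      have b4 : 0 ≤ (P.card : ℝ) / N + 1 / M := by positivity
      calc (1 + e) * ((P.card : ℝ) / N + 1 / M) ≤ 2 * ((P.card : ℝ) / N + 1 / M) :=
            mul_le_mul_of_nonneg_right (by linarith) b4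
        _ ≤ 2 * (e + S / M) := by linarith
    have a3 : (P.card : ℝ) / N * A.card ≤ e * r3 N :=
      mul_le_mul hsm hAr (Nat.cast_nonneg _) he.le
    have a4 : (0 : ℝ) ≤ (A ∩ P).card := Nat.cast_nonneg _
    have a5 : 0 ≤ (P.card : ℝ) / N * A.card := by positivity
    have a6 : 0 ≤ S / M * r3 N := by positivity
    have a7 : 0 ≤ e * (r3 N : ℝ) := by positivity
    rw [abs_le]
    constructor <;> nlinarith
  · push Not at hsm
    obtain ⟨a, q, m, hq, rfl⟩ := hP
    have hinj : Function.Injective (fun j : ℕ => a + q * j) := by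
      intro x y hxy
      have h : q * x = q * y := by simpa using hxy
      exact Nat.eq_of_mul_eq_mul_left (by omega) h
    rw [card_image_of_injective _ hinj, card_range] at hsm hPc
    have hm0 : 0 < m := by
      rcases Nat.eq_zero_or_pos m with rfl | h0
      · simp at hsm
        linarith
      · exact h0
    -- a difference which is not too large
    obtain ⟨q', hq', hqm, himg⟩ : ∃ q' : ℕ, 1 ≤ q' ∧ (q' : ℝ) * 3 ≤ S ∧
        (range m).image (fun j => a + q * j) = (range m).image (fun j => a + q' * j) := by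
      rcases Nat.lt_or_ge 1 m with hm1 | hm1
      · refine ⟨q, hq, ?_, rfl⟩
        have h1 := mem_Icc.1 (hPN (mem_image_of_mem _ (mem_range.2 hm0)))
        have h2 := mem_Icc.1 (hPN (mem_image_of_mem (fun j => a + q * j)
          (mem_range.2 (show m - 1 < m by omega))))
        simp only [mul_zero, add_zero] at h1 h2
        have h3 : q * (m - 1) ≤ N := by omega
        have h4 : q * m ≤ 2 * N := by
          have h5 : m ≤ 2 * (m - 1) := by omega
          calc q * m ≤ q * (2 * (m - 1)) := Nat.mul_le_mul_left _ h5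
            _ = 2 * (q * (m - 1)) := by ring
            _ ≤ 2 * N := by omega
        have h5 : (q : ℝ) * m ≤ 2 * N := by exact_mod_cast h4
        have h6 : e * N < m := by rwa [lt_div_iff₀ hN0] at hsm
        have h7 : (q : ℝ) * e * N ≤ 2 * N := by
          have h8 : (0 : ℝ) ≤ q := Nat.cast_nonneg _
          have := mul_le_mul_of_nonneg_left h6.le h8
          linarith
        have h8 : (q : ℝ) * e ≤ 2 := le_of_mul_le_mul_right h7 hN0
        refine le_trans ?_ hS
        rw [le_div_iff₀ he]
        linarith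
      · have hm : m = 1 := by omega
        subst hm
        exact ⟨1, le_rfl, by push_cast; linarith, by simp⟩
    rw [himg] at hPN ⊢
    have hinj' : Function.Injective (fun j : ℕ => a + q' * j) := by
      intro x y hxy
      have h : q' * x = q' * y := by simpa using hxy
      exact Nat.eq_of_mul_eq_mul_left (by omega) h
    have hb : a ≤ a + q' * m := Nat.le_add_right _ _
    have hpc := piece_core (q := q') (T := 3) (S := S) hq' (cut3_mono hb)
      (fun n _ => by unfold cut3; split_ifs <;> omega) (by push_cast; linarith)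
      h he.le he1 hM hN hA hAN hAc
    have hpe : (range m).image (fun j => a + q' * j) =
        piece N q' (cut3 a (a + q' * m)) (a % q', 1) := by
      ext n
      simp only [piece, mem_filter]
      constructor
      · intro hn
        refine ⟨hPN hn, ?_⟩
        obtain ⟨j, hj, rfl⟩ := mem_image.1 hn
        have hj' := mem_range.1 hj
        have h1 : q' * j < q' * m := Nat.mul_lt_mul_of_pos_left hj' (by omega)
        refine ⟨by simp, ?_⟩
        unfold cut3
        rw [if_neg (by omega), if_pos (by omega)]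
      · rintro ⟨hn, hn1, hn2⟩
        unfold cut3 at hn2
        have h1 : ¬ n < a := fun h1 => by rw [if_pos h1] at hn2; omega
        have h2 : n < a + q' * m := by
          by_contra h2
          rw [if_neg h1, if_neg h2] at hn2
          omega
        have h3 : a ≤ n := by omega
        obtain ⟨j, hj⟩ := (Nat.modEq_iff_dvd' h3).1 (show a ≡ n [MOD q'] from hn1.symm)
        refine mem_image.2 ⟨j, mem_range.2 ?_, by omega⟩
        by_contra hjm
        push Not at hjm
        have h4 : q' * m ≤ q' * j := Nat.mul_le_mul_left _ hjm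
        omega
    rw [hpe]
    refine le_trans ?_ hpc
    exact single_le_sum (f := fun i => |((A ∩ piece N q' (cut3 a (a + q' * m)) i).card : ℝ) -
      ((piece N q' (cut3 a (a + q' * m)) i).card : ℝ) / N * A.card|) (fun i _ => abs_nonneg _)
      (mem_product.2 ⟨mem_range.2 (Nat.mod_lt _ (by omega)), mem_range.2 (by norm_num)⟩)

end Pool.Agent.MP_0f71ae_nt.Fine
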